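import Pool.Agent.H29.T1.S7
import Pool.Agent.H24.HYP.EXD

/-!
# T1: existence of the data at `T'` and at infinity
-/

set_option autoImplicit false

namespace Pool.T1

open Polynomial Matrix Pool.HYP Pool.TOW Pool.AVS IsDedekindDomain

namespace Exd91

/-- A monic lift of an irreducible polynomial of degree `n` modulo `P`. -/
theorem exLiftP {R : Type} [CommRing R] [IsDedekindDomain R]
    (hfin : ∀ I : Ideal R, I ≠ ⊥ → Finite (R ⧸ I)) (n : ℕ) (hn : 1 ≤ n)
    (P : HeightOneSpectrum R) : ∃ γ : R[X], OkP n P.asIdeal γ := by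
  have hm : P.asIdeal.IsMaximal := P.isMaximal
  have hf : Finite (R ⧸ P.asIdeal) := hfin P.asIdeal P.ne_bot
  let _ : Field (R ⧸ P.asIdeal) := Ideal.Quotient.field P.asIdeal
  obtain ⟨p, h3, h4, h5⟩ := Pool.HYP.Exd24.exIrr (R ⧸ P.asIdeal) n hn
  have h6 : p ∈ lifts (Ideal.Quotient.mk P.asIdeal) := by
    rw [lifts_iff_coeff_lifts]
    intro i
    exact Ideal.Quotient.mk_surjective _
  obtain ⟨q, h7, h8, h9⟩ := lifts_and_natDegree_eq_and_monic h6 h3
  refine ⟨q, h9, by rw [h8, h5], ?_⟩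
  change Irreducible (q.map (Ideal.Quotient.mk P.asIdeal))
  rw [h7]
  exact h4

end Exd91

open Exd91 in
/-- **EXDA**. -/
theorem exda : EXDAStmt := by
  classical
  intro R _ _ K _ _ _ O π hR g T' hg
  have h2 : ∀ P : HeightOneSpectrum R, ∃ γ : R[X], OkP (2 * g + 1) P.asIdeal γ :=
    fun P => exLiftP hR.fin (2 * g + 1) (by omega) P
  choose ρ hρ using h2
  have hres : Finite (IsLocalRing.ResidueField O) := hR.res
  obtain ⟨top, h3, h4, h5⟩ :=
    Pool.HYP.Exd24.exIrr (IsLocalRing.ResidueField O) (2 * g + 1) (by omega)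
  exact ⟨⟨∅, T', fun _ => 0, fun _ => 0, ρ, top⟩,
    ⟨Finset.disjoint_empty_left _, fun P hP => absurd hP (Finset.notMem_empty P),
      fun P _ => hρ P, h3, h5, h4⟩, rfl, rfl⟩

end Pool.T1
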