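import Pool.Agent.H91.T1.EXDA

/-!
# T1: existence of the data at `T`
-/

set_option autoImplicit false

namespace Pool.T1

open Polynomial Matrix Pool.HYP Pool.TOW Pool.AVS IsDedekindDomain

open Exd91 in
/-- **EXDB**. -/
theorem exdb : EXDBStmt := by
  classical
  intro R _ _ K _ _ _ O π hR hex hsm g D₀ k b hg hD hT
  have h2 : ∀ P : HeightOneSpectrum R, ∃ γ : R[X], OkP (2 * g) P.asIdeal γ :=
    fun P => exLiftP hR.fin (2 * g) (by omega) P
  choose γ hγ using h2
  have h3 : ∀ n : ℕ, ∃ T : Finset (HeightOneSpectrum R), T.card = n ∧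
      ∀ P ∈ T, b < Nm P ∧ P ∉ D₀.T' := by
    intro n
    induction n with
    | zero => exact ⟨∅, Finset.card_empty, fun P hP => absurd hP (Finset.notMem_empty P)⟩
    | succ n ih =>
      obtain ⟨T, hTc, hT⟩ := ih
      obtain ⟨P, hP⟩ := hex (T ∪ D₀.T' ∪ (hsm b).toFinset)
      simp only [Finset.mem_union, Set.Finite.mem_toFinset, Set.mem_setOf_eq, not_or,
        not_le] at hP
      refine ⟨insert P T, ?_, ?_⟩
      · rw [Finset.card_insert_of_notMem hP.1.1, hTc]
      · intro P' hP'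
        rw [Finset.mem_insert] at hP'
        rcases hP' with h | h
        · rw [h]; exact ⟨hP.2, hP.1.2⟩
        · exact hT P' h
  obtain ⟨T, hTc, hT'⟩ := h3 k
  refine ⟨⟨T, D₀.T', D₀.c, γ, D₀.ρ, D₀.top⟩, ⟨?_, fun P _ => hγ P, hD.2.2.1, hD.2.2.2⟩, hTc,
    fun P hP => (hT' P hP).1, rfl, rfl, rfl⟩
  exact Finset.disjoint_left.2 fun P hP => (hT' P hP).2

end Pool.T1
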