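import Pool.Agent.H94.T1.S6

/-!
# T1: few polynomials are singular above a large prime
-/

set_option autoImplicit false

namespace Pool.T1

open Polynomial Matrix Pool.HYP Pool.TOW Pool.AVS IsDedekindDomain

namespace Lim91

theorem exp_lin (B m : ℕ) (h : 4 * B ≤ m) : B * (m + 1) ≤ 2 ^ m := by
  obtain ⟨k, hk⟩ : ∃ k, k = m / 2 := ⟨_, rfl⟩
  have h1 : 2 * k ≤ m := by omega
  have h2 : m + 1 ≤ 2 * (k + 1) := by omega
  have h3 : 2 * B ≤ k + 1 := by omega
  have h4 : k + 1 ≤ 2 ^ k := Nat.lt_two_pow_self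
  calc B * (m + 1) ≤ B * (2 * (k + 1)) := Nat.mul_le_mul_left _ h2
    _ = 2 * B * (k + 1) := by ring
    _ ≤ (k + 1) * (k + 1) := Nat.mul_le_mul_right _ h3
    _ ≤ 2 ^ k * 2 ^ k := Nat.mul_le_mul h4 h4
    _ = 2 ^ (2 * k) := by rw [← pow_add]; congr 1; ring
    _ ≤ 2 ^ m := Nat.pow_le_pow_right (by norm_num) h1

theorem qq_ge {R : Type} [CommRing R] [IsDomain R] {K : Type} [Field K] [Algebra R K]
    {O : ValuationSubring K} {π : K} (hR : GR R O π) : 2 ≤ qq O := by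
  have : Finite (IsLocalRing.ResidueField O) := hR.res
  exact Finite.one_lt_card

theorem nm_le {R : Type} [CommRing R] [IsDedekindDomain R] {K : Type} [Field K] [Algebra R K]
    [IsFractionRing R K] {O : ValuationSubring K} {π : K} (hR : GR R O π)
    (P : HeightOneSpectrum R) (a : R) (ha : a ≠ 0) (hP : a ∈ P.asIdeal) :
    Nm P ≤ Nat.card (R ⧸ Ideal.span {a}) := by
  have h1 : Ideal.span {a} ≤ P.asIdeal := (Ideal.span_singleton_le_iff_mem _).2 hP
  have h2 : Finite (R ⧸ Ideal.span {a}) := hR.fin _ (by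
    rw [Ne, Ideal.span_singleton_eq_bot]; exact ha)
  exact Nat.card_le_card_of_surjective (Ideal.Quotient.factor h1)
    (Ideal.Quotient.factor_surjective h1)

theorem ex_M {R : Type} [CommRing R] [IsDedekindDomain R] (S : Finset (HeightOneSpectrum R)) :
    ∃ M : R, M ≠ 0 ∧ ∀ P ∈ S, M ∈ P.asIdeal := by
  classical
  induction S using Finset.induction_on with
  | empty => exact ⟨1, one_ne_zero, fun P hP => absurd hP (Finset.notMem_empty P)⟩
  | insert P S _ ih =>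
    obtain ⟨M, hM, hMS⟩ := ih
    obtain ⟨a, haP, ha⟩ := Submodule.exists_mem_ne_zero_of_ne_bot P.ne_bot
    refine ⟨a * M, mul_ne_zero ha hM, fun P' hP' => ?_⟩
    rw [Finset.mem_insert] at hP'
    rcases hP' with h | h
    · rw [h]; exact Ideal.mul_mem_right _ _ haP
    · exact Ideal.mul_mem_left _ _ (hMS P' h)

end Lim91

open Lim91 in
/-- **LIMK**. -/
theorem limk (hCOSK : COSKStmt) (hAVGK : AVGKStmt) (hIRRK : IRRKStmt) (hALLK : ALLKStmt) :
    LIMKStmt := by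
  classical
  intro R _ _ K _ _ _ O π hR hU hL hDD hDer g D hg hD c₀
  obtain ⟨c₁, hc₁⟩ := hL
  obtain ⟨p, hp, hpc⟩ := hR.char
  obtain ⟨Δ, ⟨t, ht⟩, c, hΔ⟩ := hDer
  obtain ⟨κ, hκ⟩ := hCOSK R K O π hR hU hDD p hp hpc Δ c hΔ g hg
  obtain ⟨M, hM0, hMS⟩ := ex_M (D.T ∪ D.T')
  have ht0 : t ≠ 0 := by
    intro h
    rw [h, map_zero] at ht
    exact ht rfl
  obtain ⟨nM, -, -, cM, lM⟩ := hDD M hM0
  obtain ⟨nt, -, -, -, lt⟩ := hDD t ht0
  obtain ⟨nD, -, -, cD, -⟩ := hDD (Δ t) ht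
  obtain ⟨s, hs⟩ : ∃ s, s = max nM nt := ⟨_, rfl⟩
  have hMs : M ∈ Lm R O π (s : ℤ) := (lM _).2 (by omega)
  have hts : t ∈ Lm R O π (s : ℤ) := (lt _).2 (by omega)
  have hq := qq_ge hR
  have hp1 : 1 ≤ p := hp.one_lt.le
  obtain ⟨B, hB⟩ : ∃ B, B = 8 * κ * c₁ * (8 * p + 1) := ⟨_, rfl⟩
  refine ⟨4 * p * (4 * B + nM + nD + 1) + 2 * (c₀ * nmD D) + (p * s + s + 1) + 1,
    fun h hh => ?_⟩
  obtain ⟨m, hm⟩ : ∃ m, m = h / (4 * p) := ⟨_, rfl⟩
  have hm1 : m * (4 * p) ≤ h := by rw [hm]; exact Nat.div_mul_le_self _ _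
  have hm2 : 4 * B + nM + nD + 1 ≤ m := by
    rw [hm, Nat.le_div_iff_mul_le (by omega), mul_comm]
    omega
  have hm3 : h + 1 ≤ (8 * p + 1) * (m + 1) := by
    have h1 : h < (h / (4 * p) + 1) * (4 * p) := by
      rw [mul_comm]
      exact Nat.lt_mul_div_succ _ (by omega)
    rw [← hm] at h1
    nlinarith
  have hm4 : 4 * m ≤ h := by nlinarith
  have hpm : p * m ≤ h := by nlinarith
  have hcond : p * (s + m) + s + 1 ≤ (2 * g + 1) * h := by
    have h1 : p * s + s + 1 ≤ h := by omega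
    nlinarith
  have hfam : (Fam π g D h).Finite :=
    ((hALLK R K O π hR (fun m => (hU m).1) g h).1).subset fun f hf => hf.1
  have hbig : ∀ P : HeightOneSpectrum R, qq O ^ m < Nm P → M ∉ P.asIdeal ∧ Δ t ∉ P.asIdeal := by
    intro P hP
    refine ⟨fun hmem => ?_, fun hmem => ?_⟩
    · have h1 := nm_le hR P M hM0 hmem
      rw [cM] at h1
      have h2 : qq O ^ nM ≤ qq O ^ m := Nat.pow_le_pow_right (by omega) (by omega)
      omega
    · have h1 := nm_le hR P (Δ t) ht hmem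
      rw [cD] at h1
      have h2 : qq O ^ nD ≤ qq O ^ m := Nat.pow_le_pow_right (by omega) (by omega)
      omega
  have hone : ∀ f ∈ Fam π g D h, (XBK O π p M t m (qq O ^ m) f).ncard *
      (Lm R O π (m : ℤ)).ncard ≤ κ * (h + 1) * (Lm R O π (m : ℤ)).ncard ^ 2 := by
    intro f hf
    exact hκ D h hD f hf (hIRRK R K O π hR g D h hg hD f hf).2 M t s m m hM0 ht hMs hts
      (by omega) le_rfl (by omega) hbig
  have havg := hAVGK R K O π hR hU g D h p M t s m m κ hp1 hfam hMs hts hcond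
    (fun P hP => hMS P (Finset.mem_union_left _ hP))
    (fun P hP => hMS P (Finset.mem_union_right _ hP)) hone
  have hsub : {f ∈ Fam π g D h | ∃ P : HeightOneSpectrum R,
      qq O ^ h < c₀ * (Nm P ^ 2 * nmD D) ∧ Sing P.asIdeal f} ⊆ SingL π g D h (qq O ^ m) := by
    rintro f ⟨hf, P, hP, hS⟩
    refine ⟨hf, P, ?_, hS⟩
    by_contra hlt
    have h1 : Nm P ≤ qq O ^ m := not_lt.1 hlt
    have h2 : c₀ * nmD D ≤ qq O ^ (h - 2 * m) := by
      have h3 : c₀ * nmD D ≤ h - 2 * m := by omega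
      have h4 : h - 2 * m < 2 ^ (h - 2 * m) := Nat.lt_two_pow_self
      have h5 : 2 ^ (h - 2 * m) ≤ qq O ^ (h - 2 * m) := Nat.pow_le_pow_left hq _
      omega
    have h3 : c₀ * (Nm P ^ 2 * nmD D) ≤ qq O ^ h := by
      calc c₀ * (Nm P ^ 2 * nmD D) = (c₀ * nmD D) * Nm P ^ 2 := by ring
        _ ≤ qq O ^ (h - 2 * m) * (qq O ^ m) ^ 2 := Nat.mul_le_mul h2 (Nat.pow_le_pow_left h1 2)
        _ = qq O ^ h := by
          rw [← pow_mul, ← pow_add]
          congr 1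
          omega
    omega
  have hfin2 : (SingL π g D h (qq O ^ m)).Finite := hfam.subset fun f hf => hf.1
  have hle := Set.ncard_le_ncard hsub hfin2
  have hLm := hc₁ m
  have hpos : 0 < (Lm R O π (m : ℤ)).ncard := by
    rcases Nat.eq_zero_or_pos (Lm R O π (m : ℤ)).ncard with h0 | h0
    · rw [h0, mul_zero] at hLm
      have : 0 < qq O ^ (m + 1) := Nat.pow_pos (by omega)
      omega
    · exact h0
  have hkey : 8 * κ * (h + 1) ≤ (Lm R O π (m : ℤ)).ncard := by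
    rcases Nat.eq_zero_or_pos c₁ with h0 | h0
    · rw [h0, zero_mul] at hLm
      have : 0 < qq O ^ (m + 1) := Nat.pow_pos (by omega)
      omega
    · refine Nat.le_of_mul_le_mul_left ?_ h0
      calc c₁ * (8 * κ * (h + 1)) ≤ c₁ * (8 * κ * ((8 * p + 1) * (m + 1))) := by gcongr
        _ = B * (m + 1) := by rw [hB]; ring
        _ ≤ 2 ^ m := exp_lin B m (by omega)
        _ ≤ qq O ^ m := Nat.pow_le_pow_left hq _
        _ ≤ qq O ^ (m + 1) := Nat.pow_le_pow_right (by omega) (by omega)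
        _ ≤ c₁ * (Lm R O π (m : ℤ)).ncard := hLm
  refine Nat.le_of_mul_le_mul_right ?_ hpos
  calc 8 * _ * (Lm R O π (m : ℤ)).ncard
      ≤ 8 * (SingL π g D h (qq O ^ m)).ncard * (Lm R O π (m : ℤ)).ncard := by gcongr
    _ = 8 * ((SingL π g D h (qq O ^ m)).ncard * (Lm R O π (m : ℤ)).ncard) := by ring
    _ ≤ 8 * (κ * (h + 1) * (Fam π g D h).ncard) := by gcongr
    _ = 8 * κ * (h + 1) * (Fam π g D h).ncard := by ring
    _ ≤ (Lm R O π (m : ℤ)).ncard * (Fam π g D h).ncard := by gcongr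
    _ = (Fam π g D h).ncard * (Lm R O π (m : ℤ)).ncard := mul_comm _ _

end Pool.T1
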