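import Pool.Agent.H41.T1.S5
import Pool.Agent.H97.HYP.INV

/-!
# T1: the possible `d`
-/

set_option autoImplicit false

namespace Pool.T1

open Polynomial Matrix Pool.HYP Pool.TOW Pool.AVS IsDedekindDomain

namespace Cta91

theorem lm_mono {R : Type} [CommRing R] {K : Type} [Field K] [Algebra R K]
    {O : ValuationSubring K} {π : K} (hπ : π ≠ 0) (hm : π ∈ O) {m m' : ℤ} (h : m ≤ m') {a : R}
    (ha : a ∈ Lm R O π m) : a ∈ Lm R O π m' := by
  have h1 : algebraMap R K a * π ^ m ∈ O := ha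
  change algebraMap R K a * π ^ m' ∈ O
  obtain ⟨n, hn⟩ := Int.eq_ofNat_of_zero_le (sub_nonneg.2 h)
  have h2 : algebraMap R K a * π ^ m' = algebraMap R K a * π ^ m * π ^ n := by
    rw [mul_assoc, ← zpow_natCast π n, ← zpow_add₀ hπ, show m + (n : ℤ) = m' by omega]
  rw [h2]
  exact mul_mem h1 (pow_mem hm n)

theorem lm_neg {R : Type} [CommRing R] [IsDomain R] {K : Type} [Field K] [Algebra R K]
    {O : ValuationSubring K} {π : K} (hR : GR R O π) {m : ℤ} (h : m < 0) {a : R}
    (ha : a ∈ Lm R O π m) : a = 0 :=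
  hR.small a (lm_mono hR.pi_ne hR.pi_mem (by omega) ha)

theorem pen_mapK {R : Type} [CommRing R] (K : Type) [Field K] [Algebra R K] {n : ℕ}
    (G S : Matrix (Fin n) (Fin n) R) :
    (pen (G.map (algebraMap R K)) (S.map (algebraMap R K))).det =
      (pen G S).det.map (algebraMap R K) := by
  have h1 : pen (G.map (algebraMap R K)) (S.map (algebraMap R K)) =
      (Polynomial.mapRingHom (algebraMap R K)).mapMatrix (pen G S) := by
    ext i j : 2
    simp only [pen, Matrix.of_apply, RingHom.mapMatrix_apply, Matrix.map_apply,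
      Polynomial.coe_mapRingHom, Polynomial.map_sub, Polynomial.map_mul, Polynomial.map_X,
      Polynomial.map_C]
  rw [h1, ← RingHom.map_det, Polynomial.coe_mapRingHom]

theorem adm_rev {n : ℕ} {C : ℤ} {d : Fin n → ℤ} (h : Adm C d) (i : Fin n) :
    d i + d i.rev ≤ 2 * C := by
  have h1 : ∑ j : Fin n, (d j + d j.rev) = 2 * ∑ j, d j := by
    rw [Finset.sum_add_distrib, two_mul]
    congr 1
    exact Equiv.sum_comp Fin.revPerm d
  have h2 : d i + d i.rev ≤ ∑ j : Fin n, (d j + d j.rev) :=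
    Finset.single_le_sum (f := fun j : Fin n => d j + d j.rev) (fun j _ => h.2.1 j)
      (Finset.mem_univ i)
  have h3 := h.2.2
  omega

end Cta91

open Cta91 in
/-- **CTAK**. -/
theorem ctak : CTAKStmt := by
  intro R _ _ K _ _ _ O π hR g D h C₀ d hg hirr hd hne
  obtain ⟨f, hf, G, S, hG, hS, hGd, hSd, hu, hpen, -, hnz⟩ := hne
  have hmon := hd.1
  have hpos := hd.2.1
  have hle := fun i => adm_rev hd i
  have hz : ∀ a b : Fin (2 * g + 1), d a + d b + h < 0 → G a b = 0 ∧ S a b = 0 := by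
    intro a b hab
    exact ⟨lm_neg hR (by omega) (hGd a b), lm_neg hR hab (hSd a b)⟩
  refine ⟨fun i hi => ?_, fun i j hij => ?_⟩
  · have h0 : 0 ≤ 2 * d ⟨(i : ℕ), by omega⟩ + h := by
      by_contra hlt
      refine hnz fun a b ha hb => hz a b ?_
      have h1 : d a ≤ d ⟨(i : ℕ), by omega⟩ := hmon (Fin.mk_le_mk.2 (by omega) : a ≤ _)
      have h2 : d b ≤ d ⟨(i : ℕ), by omega⟩ := hmon (Fin.mk_le_mk.2 (by omega) : b ≤ _)
      omega
    unfold muK
    omega
  · have hj : (j : ℕ) < g := j.2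
    have h0 : 0 ≤ d ⟨(i : ℕ), by omega⟩ + d (Fin.rev ⟨(j : ℕ), by omega⟩) + h := by
      by_contra hlt
      have hzero : ∀ a b : Fin (2 * g + 1), (a : ℕ) < (i : ℕ) + 1 →
          (b : ℕ) < 2 * g + 1 - ((i : ℕ) + 1) → (G.map (algebraMap R K)) a b = 0 ∧
            (S.map (algebraMap R K)) a b = 0 := by
        intro a b ha hb
        have h1 : d a ≤ d ⟨(i : ℕ), by omega⟩ := hmon (Fin.mk_le_mk.2 (by omega) : a ≤ _)
        have h2 : d b ≤ d (Fin.rev ⟨(j : ℕ), by omega⟩) :=
          hmon (Fin.le_def.2 (by rw [Fin.val_rev]; simp only; omega))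
        obtain ⟨h5, h6⟩ := hz a b (by omega)
        rw [Matrix.map_apply, Matrix.map_apply, h5, h6, map_zero]
        exact ⟨rfl, rfl⟩
      have hdet : (G.map (algebraMap R K)).det = algebraMap R K G.det :=
        (RingHom.map_det (algebraMap R K) G).symm
      have hu' : algebraMap R K G.det ≠ 0 := by
        rw [Ne, map_eq_zero_iff _ (IsFractionRing.injective R K)]
        exact hu
      refine Pool.HYP.inv K (2 * g + 1) ((i : ℕ) + 1) (G.map (algebraMap R K))
        (S.map (algebraMap R K)) (by omega) (by omega) (by rw [hdet]; exact hu') hzero ?_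
      have hirr' := hirr f hf
      rw [pen_mapK, hpen, Polynomial.map_mul, Polynomial.map_C]
      exact (irreducible_isUnit_mul ((isUnit_iff_ne_zero.2 hu').map C)).2 hirr'
    have h1 := hle ⟨(j : ℕ), by omega⟩
    unfold muK
    omega

end Pool.T1
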